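import Mathlib
import Pool.Agent.N242.NT.Stm

/-!
# Project NT (helper242), part DIS: norms within `√2` of the Hilbert norm
-/

set_option autoImplicit false

open Finset

namespace Pool.Agent.N946.NT

open Pool.Agent.N242.NT

universe u

theorem sum_bound {H : Type u} [NormedAddCommGroup H] [InnerProductSpace ℝ H] (v : ℕ → H)
    (A k : ℝ) (h1 : ∀ n, ‖v n‖ ^ 2 ≤ A) (h2 : ∀ i j, i ≠ j → inner ℝ (v i) (v j) ≤ -k) (n : ℕ) :
    ‖∑ i ∈ range n, v i‖ ^ 2 ≤ n * A - n * (n - 1) * k := by
  induction n with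
  | zero => simp
  | succ n ih =>
    rw [sum_range_succ, norm_add_sq_real]
    have h3 : inner ℝ (∑ i ∈ range n, v i) (v n) ≤ n * (-k) := by
      rw [sum_inner]
      calc ∑ i ∈ range n, inner ℝ (v i) (v n) ≤ ∑ i ∈ range n, (-k) := by
            apply sum_le_sum
            intro i hi
            rw [mem_range] at hi
            exact h2 i n (by omega)
        _ = n * (-k) := by rw [sum_const, card_range, nsmul_eq_mul]
    have h4 := h1 n
    push_cast
    nlinarith

theorem t_DIS : S_DIS.{u} := by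
  intro H _ _ M c C hc hC hM
  rcases le_or_gt C 0 with h | h
  · refine ⟨1, one_pos, fun v _ => ⟨0, 1, by norm_num, ?_⟩⟩
    have h1 := (hM (v 0 - v 1)).2
    have h2 : C * ‖v 0 - v 1‖ ≤ 0 := mul_nonpos_of_nonpos_of_nonneg h (norm_nonneg _)
    linarith
  · set η : ℝ := (2 * c ^ 2 - C ^ 2) / (4 * c ^ 2) with hη
    have hη0 : 0 < η := div_pos (by linarith) (by positivity)
    have hη1 : 4 * c ^ 2 * η = 2 * c ^ 2 - C ^ 2 := by
      rw [hη]
      field_simp
    have hη2 : η ≤ 1 / 2 := by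
      have h1 : 0 < C ^ 2 := by positivity
      have h2 : 0 < c ^ 2 := by positivity
      nlinarith
    refine ⟨η, hη0, fun v hv => ?_⟩
    by_contra hcon
    push Not at hcon
    set k : ℝ := ((2 - η) ^ 2 / C ^ 2 - 2 / c ^ 2) / 2 with hk
    have hk0 : 0 < k := by
      rw [hk]
      apply half_pos
      rw [sub_pos, div_lt_div_iff₀ (by positivity) (by positivity)]
      nlinarith [sq_nonneg (η * c)]
    have hn : ∀ n, ‖v n‖ ^ 2 ≤ 1 / c ^ 2 := by
      intro n
      have h1 := (hM (v n)).1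
      have h2 := hv n
      have h3 : ‖v n‖ ≤ 1 / c := by
        rw [le_div_iff₀ hc]
        linarith
      calc ‖v n‖ ^ 2 ≤ (1 / c) ^ 2 := pow_le_pow_left₀ (norm_nonneg _) h3 2
        _ = 1 / c ^ 2 := by rw [div_pow, one_pow]
    have hin : ∀ i j, i ≠ j → inner ℝ (v i) (v j) ≤ -k := by
      intro i j hij
      have h1 := hcon i j hij
      have h2 := (hM (v i - v j)).2
      have h3 : (2 - η) / C ≤ ‖v i - v j‖ := by
        rw [div_le_iff₀ h]
        linarith
      have h4 : ((2 - η) / C) ^ 2 ≤ ‖v i - v j‖ ^ 2 :=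
        pow_le_pow_left₀ (div_nonneg (by linarith) h.le) h3 2
      rw [norm_sub_sq_real, div_pow] at h4
      have h5 := hn i
      have h6 := hn j
      have h7 : 2 / c ^ 2 = 1 / c ^ 2 + 1 / c ^ 2 := by ring
      rw [hk, h7]
      linarith
    obtain ⟨n, hn1⟩ := exists_nat_gt (1 + 1 / c ^ 2 / k)
    have h1 := sum_bound v (1 / c ^ 2) k hn hin n
    have h2 : 0 ≤ ‖∑ i ∈ range n, v i‖ ^ 2 := by positivity
    have h3 : 1 / c ^ 2 < (n - 1) * k := by
      have h4 : 1 / c ^ 2 / k < n - 1 := by linarith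
      rwa [div_lt_iff₀ hk0] at h4
    have h5 : (0 : ℝ) < n := by
      have : 0 < 1 / c ^ 2 / k := by positivity
      linarith
    nlinarith

end Pool.Agent.N946.NT
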